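import Mathlib

/-!
# The generic configuration is an attractor of the 2-line voting

The set of all attractors of the 2-line voting is comeager in the compact space of all
configurations. For a comeager set of attractors both constant configurations are limit points of
the trajectory, and there are continuum many attractors whose trajectories never meet modulo finite
perturbations.
-/

set_option autoImplicit false

namespace Pool.Agent.Results.MP_bedf46_an.GenericAttractors

open Filter Topology

/-- The sites: two parallel rows, indexed by the integers and by the units 1, -1 of the integers. -/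
abbrev Site : Type := ℤ × ℤˣ

/-- A configuration assigns 0 (false) or 1 (true) to every site. -/
abbrev Config : Type := Site → Bool

/-- The majority of three bits. -/
def maj (a b c : Bool) : Bool := (a && b) || (a && c) || (b && c)

/-- The 2-line voting. -/
def F (y : Config) : Config := fun v =>
  maj (y (v.1 - 2 * (v.2 : ℤ), v.2)) (y (v.1 - (v.2 : ℤ), v.2)) (y (v.1, -v.2))

/-- Two configurations are finite perturbations of each other. -/
def FinitePert (s s' : Config) : Prop := {v : Site | s v ≠ s' v}.Finite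

/-- The attractor property: the space-time array of every finite perturbation differs from that
of `s` at only finitely many space-time points. -/
def IsAttractor (s : Config) : Prop :=
  ∀ s' : Config, FinitePert s s' → {p : Site × ℕ | F^[p.2] s p.1 ≠ F^[p.2] s' p.1}.Finite

/-- The position of a site, measured in the direction of motion of its row. -/
def pos (v : Site) : ℤ := v.1 * (v.2 : ℤ)

theorem maj_ne {a b c d : Bool} (h : maj a b c ≠ d) :
    (a ≠ d ∧ b ≠ d) ∨ (a ≠ d ∧ c ≠ d) ∨ (b ≠ d ∧ c ≠ d) := by
  revert h; revert a b c d; decide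

theorem unit_cases (j : ℤˣ) : (j : ℤ) = 1 ∨ (j : ℤ) = -1 := by
  rcases Int.units_eq_one_or j with h | h <;> simp [h]

/-- Erosion: if `y` equals `c` at all sites with `m < |i| ≤ M`, then the sites that differ from `c`
drift in the direction of motion of their row inside an interval that shrinks. -/
theorem erode_aux (m M : ℕ) (c : Bool) (y : Config)
    (hy : ∀ v : Site, m < v.1.natAbs → v.1.natAbs ≤ M → y v = c) :
    ∀ t : ℕ, ∀ v : Site, v.1.natAbs + 2 * t ≤ M → F^[t] y v ≠ c →
      ((t : ℤ) - m ≤ pos v ∧ 2 * ((t : ℤ) - m) ≤ pos v ∨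
        (t : ℤ) ≤ m ∧ (t : ℤ) - m ≤ pos v) ∧ pos v ≤ m + t := by
  intro t
  induction t with
  | zero =>
    intro v hv hne
    have h1 : v.1.natAbs ≤ m := by
      by_contra hcon
      exact hne (hy v (by omega) (by omega))
    unfold pos
    rcases unit_cases v.2 with h | h <;> rw [h] <;> constructor <;> omega
  | succ t ih =>
    intro v hv hne
    rw [Function.iterate_succ_apply'] at hne
    have hmaj := maj_ne hne
    have e1 : pos (v.1 - 2 * (v.2 : ℤ), v.2) = pos v - 2 := by
      unfold pos
      rcases unit_cases v.2 with h | h <;> simp only [h] <;> ring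
    have e2 : pos (v.1 - (v.2 : ℤ), v.2) = pos v - 1 := by
      unfold pos
      rcases unit_cases v.2 with h | h <;> simp only [h] <;> ring
    have e3 : pos (v.1, -v.2) = - pos v := by
      unfold pos
      simp only [Units.val_neg]
      ring
    have n1 : (v.1 - 2 * (v.2 : ℤ)).natAbs + 2 * t ≤ M := by
      rcases unit_cases v.2 with h | h <;> rw [h] <;> omega
    have n2 : (v.1 - (v.2 : ℤ)).natAbs + 2 * t ≤ M := by
      rcases unit_cases v.2 with h | h <;> rw [h] <;> omega
    have n3 : v.1.natAbs + 2 * t ≤ M := by omega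
    have i1 := ih (v.1 - 2 * (v.2 : ℤ), v.2) n1
    have i2 := ih (v.1 - (v.2 : ℤ), v.2) n2
    have i3 := ih (v.1, -v.2) n3
    rw [e1] at i1
    rw [e2] at i2
    rw [e3] at i3
    push_cast
    rcases hmaj with ⟨ha, hb⟩ | ⟨ha, hb⟩ | ⟨ha, hb⟩
    · have := i1 ha
      have := i2 hb
      omega
    · have := i1 ha
      have := i3 hb
      omega
    · have := i2 ha
      have := i3 hb
      omega

/-- Erosion of everything that differs from `c` inside `|i| ≤ m`, by time `3 m + 1`. -/
theorem erode (m M : ℕ) (c : Bool) (y : Config)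
    (hy : ∀ v : Site, m < v.1.natAbs → v.1.natAbs ≤ M → y v = c)
    (t : ℕ) (ht : 3 * m + 1 ≤ t) (v : Site) (hv : v.1.natAbs + 2 * t ≤ M) :
    F^[t] y v = c := by
  by_contra hne
  have := erode_aux m M c y hy t v hv hne
  omega

/-- Finite speed of propagation. -/
theorem speed (m : ℕ) (s s' : Config) (h : ∀ v : Site, m < v.1.natAbs → s v = s' v) :
    ∀ t : ℕ, ∀ v : Site, m + 2 * t < v.1.natAbs → F^[t] s v = F^[t] s' v := by
  intro t
  induction t with
  | zero => intro v hv; exact h v (by omega)
  | succ t ih =>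
    intro v hv
    rw [Function.iterate_succ_apply', Function.iterate_succ_apply']
    have n1 : m + 2 * t < (v.1 - 2 * (v.2 : ℤ)).natAbs := by
      rcases unit_cases v.2 with h | h <;> rw [h] <;> omega
    have n2 : m + 2 * t < (v.1 - (v.2 : ℤ)).natAbs := by
      rcases unit_cases v.2 with h | h <;> rw [h] <;> omega
    have n3 : m + 2 * t < v.1.natAbs := by omega
    show maj _ _ _ = maj _ _ _
    rw [ih (v.1 - 2 * (v.2 : ℤ), v.2) n1, ih (v.1 - (v.2 : ℤ), v.2) n2, ih (v.1, -v.2) n3]

theorem finite_box (B : ℕ) : {v : Site | v.1.natAbs ≤ B}.Finite := by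
  have h : {v : Site | v.1.natAbs ≤ B} ⊆ (Set.Icc (-(B : ℤ)) B) ×ˢ (Set.univ : Set ℤˣ) := by
    intro v hv
    simp only [Set.mem_ofPred_eq] at hv
    refine ⟨⟨by omega, by omega⟩, Set.mem_univ _⟩
  exact ((Set.finite_Icc _ _).prod Set.finite_univ).subset h

theorem bounded_of_finite {D : Set Site} (hD : D.Finite) : ∃ N : ℕ, ∀ v ∈ D, v.1.natAbs ≤ N := by
  obtain ⟨N, hN⟩ := (hD.image (fun v : Site => v.1.natAbs)).bddAbove
  exact ⟨N, fun v hv => hN ⟨v, hv, rfl⟩⟩


/-- A constant annulus of ratio 20 at scale `m`. -/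
def Ann (m : ℕ) (b : Bool) (s : Config) : Prop :=
  ∀ v : Site, m < v.1.natAbs → v.1.natAbs ≤ 20 * m → s v = b

/-- Criterion: constant annuli at arbitrarily large scales make an attractor. -/
theorem crit (s : Config) (h : ∀ N : ℕ, ∃ m, N ≤ m ∧ ∃ b, Ann m b s) : IsAttractor s := by
  intro s' hs'
  obtain ⟨N, hN⟩ := bounded_of_finite hs'
  obtain ⟨m, hm, b, hb⟩ := h (N + 1)
  have hagree : ∀ v : Site, m < v.1.natAbs → s v = s' v := by
    intro v hv
    by_contra hne
    have := hN v hne
    omega
  have hb' : Ann m b s' := fun v h1 h2 => by rw [← hagree v h1]; exact hb v h1 h2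
  set t0 : ℕ := 3 * m + 1 with ht0
  have heq : F^[t0] s = F^[t0] s' := by
    funext v
    by_cases hv : v.1.natAbs + 2 * t0 ≤ 20 * m
    · rw [erode m (20 * m) b s hb t0 le_rfl v hv, erode m (20 * m) b s' hb' t0 le_rfl v hv]
    · exact speed m s s' hagree t0 v (by omega)
  have hlate : ∀ t : ℕ, t0 ≤ t → F^[t] s = F^[t] s' := by
    intro t ht
    obtain ⟨r, rfl⟩ := Nat.exists_eq_add_of_le' ht
    rw [Function.iterate_add_apply F r t0 s, Function.iterate_add_apply F r t0 s', heq]
  have hsub : {p : Site × ℕ | F^[p.2] s p.1 ≠ F^[p.2] s' p.1} ⊆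
      {v : Site | v.1.natAbs ≤ m + 2 * t0} ×ˢ (Set.Iio t0) := by
    rintro ⟨v, t⟩ hp
    simp only [Set.mem_ofPred_eq] at hp
    have ht : t < t0 := by
      by_contra hcon
      exact hp (by rw [hlate t (by omega)])
    refine ⟨?_, ht⟩
    simp only [Set.mem_ofPred_eq]
    by_contra hcon
    exact hp (speed m s s' hagree t v (by omega))
  exact ((finite_box _).prod (Set.finite_Iio _)).subset hsub

/-- Both constants occur on large boxes at late times. -/
def Osc (s : Config) : Prop :=
  ∀ (b : Bool) (R T : ℕ), ∃ t, T ≤ t ∧ ∀ v : Site, v.1.natAbs ≤ R → F^[t] s v = b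

theorem osc_of (s : Config) (h : ∀ (b : Bool) (N : ℕ), ∃ m, N ≤ m ∧ Ann m b s) : Osc s := by
  intro b R T
  obtain ⟨m, hm, hb⟩ := h b (R + T + 1)
  refine ⟨3 * m + 1, by omega, fun v hv => ?_⟩
  exact erode m (20 * m) b s hb _ le_rfl v (by omega)

theorem not_bunch (s : Config) (h : Osc s) (b : Bool) (t : ℕ) :
    ¬ FinitePert (F^[t] s) (fun _ => b) := by
  intro hfin
  obtain ⟨N, hN⟩ := bounded_of_finite hfin
  obtain ⟨r, hr, hval⟩ := h (!b) 0 (t + (3 * N + 1))
  have hval := hval (0, 1) (by simp)
  obtain ⟨u, rfl⟩ := Nat.exists_eq_add_of_le' (le_trans (Nat.le_add_right t (3 * N + 1)) hr)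
  rw [Function.iterate_add_apply] at hval
  have := erode N (2 * u) b (F^[t] s)
    (fun w h1 _ => by
      by_contra hne
      have := hN w hne
      omega) u (by omega) (0, 1) (by simp)
  rw [this] at hval
  cases b <;> simp at hval

/-- Constant regions stay constant in their interior. -/
theorem region (m M : ℕ) (b : Bool) (s : Config)
    (h : ∀ v : Site, m < v.1.natAbs → v.1.natAbs ≤ M → s v = b) :
    ∀ t : ℕ, ∀ v : Site, m + 2 * t < v.1.natAbs → v.1.natAbs + 2 * t ≤ M → F^[t] s v = b := by
  intro t
  induction t with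
  | zero => intro v h1 h2; exact h v (by omega) (by omega)
  | succ t ih =>
    intro v h1 h2
    rw [Function.iterate_succ_apply']
    have n1 := ih (v.1 - 2 * (v.2 : ℤ), v.2)
      (by simp only; rcases unit_cases v.2 with h | h <;> rw [h] <;> omega)
      (by simp only; rcases unit_cases v.2 with h | h <;> rw [h] <;> omega)
    have n2 := ih (v.1 - (v.2 : ℤ), v.2)
      (by simp only; rcases unit_cases v.2 with h | h <;> rw [h] <;> omega)
      (by simp only; rcases unit_cases v.2 with h | h <;> rw [h] <;> omega)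
    have n3 := ih (v.1, -v.2) (by simp only; omega) (by simp only; omega)
    show maj _ _ _ = b
    rw [n1, n2, n3]
    cases b <;> rfl

/-! ### Genericity -/

theorem isOpen_ann (m : ℕ) (b : Bool) : IsOpen {s : Config | Ann m b s} := by
  have hfin : {v : Site | m < v.1.natAbs ∧ v.1.natAbs ≤ 20 * m}.Finite :=
    (finite_box (20 * m)).subset (fun v hv => hv.2)
  have e : {s : Config | Ann m b s} =
      ⋂ v ∈ {v : Site | m < v.1.natAbs ∧ v.1.natAbs ≤ 20 * m}, {s : Config | s v = b} := by
    ext s
    simp only [Set.mem_iInter, Set.mem_ofPred_eq]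
    exact ⟨fun h v hv => h v hv.1 hv.2, fun h v h1 h2 => h v ⟨h1, h2⟩⟩
  rw [e]
  refine hfin.isOpen_biInter fun v _ => ?_
  exact (isOpen_discrete ({b} : Set Bool)).preimage
    (continuous_apply v : Continuous fun s : Config => s v)

theorem dense_ann (N : ℕ) (b : Bool) : Dense (⋃ m ∈ Set.Ici N, {s : Config | Ann m b s}) := by
  intro s
  let g : ℕ → Config := fun m v => if v.1.natAbs ≤ m then s v else b
  have hg : Tendsto g atTop (𝓝 s) := by
    rw [tendsto_pi_nhds]
    intro v
    refine tendsto_const_nhds.congr' ?_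
    filter_upwards [eventually_ge_atTop v.1.natAbs] with m hm
    simp only [g, if_pos hm]
  refine mem_closure_of_tendsto hg ?_
  filter_upwards [eventually_ge_atTop N] with m hm
  simp only [Set.mem_iUnion]
  refine ⟨m, hm, fun v h1 _ => ?_⟩
  simp only [g]
  rw [if_neg (by omega)]

theorem generic : ∀ᶠ s in residual Config, ∀ (b : Bool) (N : ℕ), ∃ m, N ≤ m ∧ Ann m b s := by
  rw [eventually_countable_forall]
  intro b
  rw [eventually_countable_forall]
  intro N
  have h := residual_of_dense_open
    (isOpen_biUnion (s := Set.Ici N) fun m _ => isOpen_ann m b) (dense_ann N b)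
  filter_upwards [h] with s hs
  simp only [Set.mem_iUnion] at hs
  obtain ⟨m, hm, hs⟩ := hs
  exact ⟨m, hm, hs⟩

/-! ### A continuum of attractors -/

/-- The bit on the scale `k`. -/
def bit (x : ℕ → Bool) (k : ℕ) : Bool :=
  if k % 4 = 0 then false else if k % 4 = 2 then true else x (Nat.unpair (k / 2)).1

/-- Nested annuli of zeroes and ones with geometrically growing radii. -/
def S (x : ℕ → Bool) : Config := fun v => bit x (Nat.clog 20 v.1.natAbs)

theorem S_scale (x : ℕ → Bool) (k : ℕ) (v : Site) (h1 : 20 ^ k < v.1.natAbs)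
    (h2 : v.1.natAbs ≤ 20 ^ (k + 1)) : S x v = bit x (k + 1) := by
  have : Nat.clog 20 v.1.natAbs = k + 1 := by
    apply le_antisymm
    · exact (Nat.clog_le_iff_le_pow (by norm_num)).2 h2
    · exact (Nat.lt_clog_iff_pow_lt (by norm_num)).2 h1
  unfold S
  rw [this]

theorem S_ann (x : ℕ → Bool) (b : Bool) (N : ℕ) : ∃ m, N ≤ m ∧ Ann m b (S x) := by
  obtain ⟨k, hk, hval⟩ : ∃ k : ℕ, N ≤ k ∧ bit x (k + 1) = b := by
    cases b with
    | false =>
      refine ⟨4 * N + 3, by omega, ?_⟩
      unfold bit
      rw [if_pos (by omega)]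
    | true =>
      refine ⟨4 * N + 1, by omega, ?_⟩
      unfold bit
      rw [if_neg (by omega), if_pos (by omega)]
  have hkp : k < 20 ^ k := Nat.lt_pow_self (by norm_num)
  refine ⟨20 ^ k, by omega, fun v h1 h2 => ?_⟩
  rw [← hval]
  exact S_scale x k v h1 (by rw [pow_succ]; omega)

theorem S_diff (x y : ℕ → Bool) (hxy : x ≠ y) (t u : ℕ) :
    ¬ FinitePert (F^[t] (S x)) (F^[u] (S y)) := by
  intro hfin
  obtain ⟨N, hN⟩ := bounded_of_finite hfin
  obtain ⟨n, hn⟩ := Function.ne_iff.1 hxy
  set j := N + t + u with hj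
  set k := 2 * Nat.pair n j with hk
  have hbit : ∀ z : ℕ → Bool, bit z (k + 1) = z n := by
    intro z
    unfold bit
    rw [if_neg (by omega), if_neg (by omega)]
    have : (k + 1) / 2 = Nat.pair n j := by omega
    rw [this, Nat.unpair_pair]
  have hjk : j ≤ k := by
    have := Nat.right_le_pair n j
    omega
  have hkp : k < 20 ^ k := Nat.lt_pow_self (by norm_num)
  have hp : 20 ^ (k + 1) = 20 * 20 ^ k := by ring
  set v : Site := (((20 ^ k + 2 * (t + u) + 1 : ℕ) : ℤ), 1) with hv
  have hvn : v.1.natAbs = 20 ^ k + 2 * (t + u) + 1 := by rw [hv]; exact Int.natAbs_natCast _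
  have h1 : F^[t] (S x) v = x n := by
    rw [← hbit x]
    exact region (20 ^ k) (20 ^ (k + 1)) _ (S x) (fun w a b => S_scale x k w a b) t v
      (by omega) (by omega)
  have h2 : F^[u] (S y) v = y n := by
    rw [← hbit y]
    exact region (20 ^ k) (20 ^ (k + 1)) _ (S y) (fun w a b => S_scale y k w a b) u v
      (by omega) (by omega)
  have h3 : F^[t] (S x) v ≠ F^[u] (S y) v := by rw [h1, h2]; exact hn
  have := hN v h3
  omega

/-- **The generic configuration is an attractor of the 2-line voting.** (1) For all configurations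
`s` outside a meager subset of the compact space of all configurations (product topology): `s` is
an attractor, no iterate of `s` lies in the bunch of one of the two constant configurations, and
for each of the two values there are arbitrarily late times at which the trajectory has this value
on an arbitrarily large box, so both constant configurations are limit points of the trajectory.
(2) There are continuum many such attractors `S x`, `x : ℕ → Bool`, such that for different `x`,
`y` no iterate of `S x` lies in the bunch of an iterate of `S y`. -/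
theorem result :
    (∀ᶠ s in residual Config, IsAttractor s ∧
      (∀ (t : ℕ) (b : Bool), ¬ FinitePert (F^[t] s) (fun _ => b)) ∧
      ∀ (b : Bool) (R T : ℕ), ∃ t, T ≤ t ∧ ∀ v : Site, v.1.natAbs ≤ R → F^[t] s v = b) ∧
    (∃ S : (ℕ → Bool) → Config,
      (∀ x, IsAttractor (S x) ∧
        (∀ (t : ℕ) (b : Bool), ¬ FinitePert (F^[t] (S x)) (fun _ => b)) ∧
        ∀ (b : Bool) (R T : ℕ), ∃ t, T ≤ t ∧ ∀ v : Site, v.1.natAbs ≤ R → F^[t] (S x) v = b) ∧
      ∀ x y, x ≠ y → ∀ t u : ℕ, ¬ FinitePert (F^[t] (S x)) (F^[u] (S y))) := by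
  constructor
  · filter_upwards [generic] with s hs
    have ho := osc_of s hs
    refine ⟨crit s fun N => ?_, fun t b => not_bunch s ho b t, ho⟩
    obtain ⟨m, hm, h⟩ := hs true N
    exact ⟨m, hm, true, h⟩
  · refine ⟨S, fun x => ?_, fun x y hxy t u => S_diff x y hxy t u⟩
    have ho := osc_of (S x) (S_ann x)
    refine ⟨crit _ fun N => ?_, fun t b => not_bunch _ ho b t, ho⟩
    obtain ⟨m, hm, h⟩ := S_ann x true N
    exact ⟨m, hm, true, h⟩

end Pool.Agent.Results.MP_bedf46_an.GenericAttractors
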